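import Pool.Agent.H770.GS.TC
import Pool.Agent.H356.GSQd

/-!
# Project TC, part 5: the derivatives of `Qc`
-/

set_option autoImplicit false

open MeasureTheory Set intervalIntegral Filter Topology

namespace Pool.Agent.H734.TCcutd

open Pool.Agent.H770.GS
open Pool.Agent.H356.GSQd (deriv_param leib)

theorem yW_deriv (y : ℝ) : HasDerivAt (fun y => y * W y) ((1 - y ^ 2) * W y) y := by
  have h := (hasDerivAt_id y).mul (W_deriv y)
  refine h.congr_deriv ?_
  simp only [id]
  ring

theorem d1 (r c w : ℝ) : HasDerivAt (Qc r c) (Qcd r c w) w := by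
  have hn := nL_cont r
  have hW := W_cont
  have h1 : HasDerivAt (fun v => ∫ a in (0:ℝ)..(2 * r / c), W (a - v) * nL r (c * a))
      (∫ a in (0:ℝ)..(2 * r / c), (a - w) * W (a - w) * nL r (c * a)) w := by
    refine deriv_param (f := fun v a => W (a - v) * nL r (c * a))
      (f' := fun v a => (a - v) * W (a - v) * nL r (c * a)) ?_ ?_ ?_ _ _
    · unfold Function.uncurry; fun_prop
    · unfold Function.uncurry; fun_prop
    · intro v a
      have h := (W_deriv (a - v)).comp v ((hasDerivAt_id v).const_sub a)
      refine (h.mul_const (nL r (c * a))).congr_deriv ?_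
      ring
  have h2 : HasDerivAt (fun v => ∫ a in (0:ℝ)..(r - v), W (a + v) * nL r (c * a))
      (-1 * (W (r - w + w) * nL r (c * (r - w))) +
        ∫ a in (0:ℝ)..(r - w), -((a + w) * W (a + w) * nL r (c * a))) w := by
    refine leib (f := fun v a => W (a + v) * nL r (c * a))
      (f' := fun v a => -((a + v) * W (a + v) * nL r (c * a))) ?_ ?_ ?_ ?_
    · unfold Function.uncurry; fun_prop
    · unfold Function.uncurry; fun_prop
    · intro v a
      have h := (W_deriv (a + v)).comp v ((hasDerivAt_id v).const_add a)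
      refine (h.mul_const (nL r (c * a))).congr_deriv ?_
      ring
    · exact (hasDerivAt_id w).const_sub r
  have h3 := h1.fun_sub h2
  refine h3.congr_deriv ?_
  rw [intervalIntegral.integral_neg]
  unfold Qcd
  have a2 : r - w + w = r := by ring
  rw [a2]
  ring

theorem d2 (r c w : ℝ) : HasDerivAt (Qcd r c) (Qcdd r c w) w := by
  have hn := nL_cont r
  have hW := W_cont
  have h0 : HasDerivAt (fun v => W r * nL r (c * (r - v)))
      (W r * (nLd r (c * (r - w)) * (c * -1))) w := by
    have h := (nL_deriv r (c * (r - w))).comp w (((hasDerivAt_id w).const_sub r).const_mul c)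
    exact h.const_mul (W r)
  have h1 : HasDerivAt (fun v => ∫ a in (0:ℝ)..(2 * r / c), (a - v) * W (a - v) * nL r (c * a))
      (∫ a in (0:ℝ)..(2 * r / c), -((1 - (a - w) ^ 2) * W (a - w) * nL r (c * a))) w := by
    refine deriv_param (f := fun v a => (a - v) * W (a - v) * nL r (c * a))
      (f' := fun v a => -((1 - (a - v) ^ 2) * W (a - v) * nL r (c * a))) ?_ ?_ ?_ _ _
    · unfold Function.uncurry; fun_prop
    · unfold Function.uncurry; fun_prop
    · intro v a
      have h := (yW_deriv (a - v)).comp v ((hasDerivAt_id v).const_sub a)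
      refine (h.mul_const (nL r (c * a))).congr_deriv ?_
      ring
  have h2 : HasDerivAt (fun v => ∫ a in (0:ℝ)..(r - v), (a + v) * W (a + v) * nL r (c * a))
      (-1 * ((r - w + w) * W (r - w + w) * nL r (c * (r - w))) +
        ∫ a in (0:ℝ)..(r - w), (1 - (a + w) ^ 2) * W (a + w) * nL r (c * a)) w := by
    refine leib (f := fun v a => (a + v) * W (a + v) * nL r (c * a))
      (f' := fun v a => (1 - (a + v) ^ 2) * W (a + v) * nL r (c * a)) ?_ ?_ ?_ ?_
    · unfold Function.uncurry; fun_prop
    · unfold Function.uncurry; fun_prop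
    · intro v a
      have h := (yW_deriv (a + v)).comp v ((hasDerivAt_id v).const_add a)
      refine (h.mul_const (nL r (c * a))).congr_deriv ?_
      ring
    · exact (hasDerivAt_id w).const_sub r
  have h3 := (h0.fun_add h1).fun_add h2
  refine h3.congr_deriv ?_
  rw [intervalIntegral.integral_neg]
  unfold Qcdd
  have a2 : r - w + w = r := by ring
  rw [a2]
  ring

theorem cutd : S_cutd := fun r c w => ⟨d1 r c w, d2 r c w⟩

end Pool.Agent.H734.TCcutd
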